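import Pool.Agent.H30.VX.Targets

/-!
# MP_d32443_co, large `k`: row EXC

`k - j` hubs and segments of total excess `2 (j + 1)` give a run.
-/

set_option autoImplicit false

namespace Pool.Agent.H20.VX

open Finset Pool.Agent.H48.CE Pool.Agent.H30.VR Pool.Agent.H30.VX

open scoped Classical in
/-- SEG with an arbitrary finite index type -/
theorem EXC_seg (hSEG : T_SEG) {V ι : Type} [Fintype ι] (G : SimpleGraph V) (H B : Finset V)
    (z c : ℕ) (σ : ι → List V) (h h' : ι → V) (h1 : ∀ i, h i ∈ H ∧ h' i ∈ H)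
    (h2 : ∀ i j, h i ≠ h' j) (h3 : Function.Injective h) (h4 : Function.Injective h')
    (h5 : ∀ i, σ i ≠ [] ∧ (σ i).Nodup ∧ (σ i).IsChain G.Adj)
    (h6 : ∀ i j, i ≠ j → ∀ v ∈ σ i, v ∉ σ j) (h7 : ∀ i, ∀ v ∈ σ i, v ∉ H)
    (h8 : ∀ i, ∀ x ∈ (σ i).head?, G.Adj (h i) x)
    (h9 : ∀ i, ∀ y ∈ (σ i).getLast?, G.Adj y (h' i))
    (h10 : ∀ u ∈ H, ∀ v ∈ H, u ≠ v →
      c + ∑ i, (σ i).length ≤ ((cn G B u v).filter (fun w => w ∉ H)).card)
    (h11 : 2 * Fintype.card ι + z ≤ H.card) (h12 : Fintype.card ι + z ≤ c)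
    (h13 : 1 ≤ Fintype.card ι ∨ 2 ≤ z) :
    Cy G (∑ i, (σ i).length + 3 * Fintype.card ι + 2 * z) := by
  let e : Fin (Fintype.card ι) ≃ ι := (Fintype.equivFin ι).symm
  have hsum : ∑ i, (σ (e i)).length = ∑ i, (σ i).length :=
    Equiv.sum_comp e (fun i => (σ i).length)
  have key := hSEG G H B (Fintype.card ι) z c (fun i => σ (e i)) (fun i => h (e i))
    (fun i => h' (e i)) (fun i => h1 _) (fun i j => h2 _ _)
    (fun i i' hi => e.injective (h3 hi)) (fun i i' hi => e.injective (h4 hi))
    (fun i => h5 _) (fun i i' hi => h6 _ _ (fun heq => hi (e.injective heq))) (fun i => h7 _)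
    (fun i => h8 _) (fun i => h9 _) ?_ h11 h12 h13
  · rw [hsum] at key
    exact key
  · intro u hu v hv huv
    have h14 := h10 u hu v hv huv
    have h15 : ((cn G B u v).filter (fun w => w ∉ H)).card ≤
        ((cn G B u v).filter (fun w => w ∉ H ∧ ∀ i, w ∉ σ (e i))).card +
          (univ.biUnion (fun i => (σ i).toFinset)).card := by
      refine le_trans (card_le_card ?_) (card_union_le _ _)
      intro w hw
      rw [mem_filter] at hw
      rw [mem_union, mem_filter]
      by_cases hws : ∀ i, w ∉ σ (e i)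
      · exact Or.inl ⟨hw.1, hw.2, hws⟩
      · right
        push Not at hws
        obtain ⟨i, hi⟩ := hws
        rw [mem_biUnion]
        exact ⟨e i, mem_univ _, List.mem_toFinset.2 hi⟩
    have h16 : (univ.biUnion (fun i => (σ i).toFinset)).card ≤ ∑ i, (σ i).length :=
      le_trans card_biUnion_le (sum_le_sum fun i _ => List.toFinset_card_le _)
    omega

/-- private hubs for the ends of the segments -/
theorem EXC_hub (hSEG : T_SEG) (hGRD : T_GRD) {V ι : Type} [Fintype ι] (G : SimpleGraph V)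
    (H B : Finset V) (q k : ℕ) (σ : ι → List V) (x y : ι → V)
    (h5 : ∀ i, (σ i).Nodup ∧ (σ i).IsChain G.Adj)
    (h6 : ∀ i j, i ≠ j → ∀ v ∈ σ i, v ∉ σ j) (h7 : ∀ i, ∀ v ∈ σ i, v ∉ H)
    (h8 : ∀ i, (σ i).head? = some (x i)) (h9 : ∀ i, (σ i).getLast? = some (y i))
    (h8' : ∀ i, 4 * q ≤ (nb G H (x i)).card) (h9' : ∀ i, 4 * q ≤ (nb G H (y i)).card)
    (h10 : by
      classical exact ∀ u ∈ H, ∀ v ∈ H, u ≠ v →
      k + 4 * q ≤ ((cn G B u v).filter (fun w => w ∉ H)).card)
    (h11 : 4 * q ≤ H.card) (h12 : H.card ≤ k) (h13 : 1 ≤ Fintype.card ι)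
    (h14 : Fintype.card ι ≤ 2 * q) (h15 : ∑ i, (σ i).length ≤ 4 * q) :
    Cy G (∑ i, (σ i).length + 3 * Fintype.card ι + 2 * (H.card - 2 * Fintype.card ι)) := by
  classical
  obtain ⟨g, hg1, hg2⟩ := hGRD (V := V) (ι := ι × Bool)
    (fun p => nb G H (if p.2 then y p.1 else x p.1)) ∅ (by
      rintro ⟨i, b⟩
      rw [card_empty, Fintype.card_prod, Fintype.card_bool]
      cases b
      · have := h8' i
        simp only [Bool.false_eq_true, if_false]
        omega
      · have := h9' i
        simp only [if_true]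
        omega)
  refine EXC_seg hSEG G H B (H.card - 2 * Fintype.card ι) k σ (fun i => g (i, false))
    (fun i => g (i, true)) ?_ ?_ ?_ ?_ ?_ h6 h7 ?_ ?_ ?_ (by omega) (by omega) (Or.inl h13)
  · intro i
    exact ⟨(mem_nb.1 (hg2 (i, false)).1).1, (mem_nb.1 (hg2 (i, true)).1).1⟩
  · intro i j hij
    have := hg1 hij
    simp at this
  · intro i j hij
    have := hg1 hij
    simpa using this
  · intro i j hij
    have := hg1 hij
    simpa using this
  · intro i
    refine ⟨?_, h5 i⟩
    intro h
    have := h8 i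
    rw [h] at this
    simp at this
  · intro i z hz
    rw [h8 i, Option.mem_def, Option.some.injEq] at hz
    subst hz
    have := (mem_nb.1 (hg2 (i, false)).1).2
    simp only [Bool.false_eq_true, if_false] at this
    exact this.symm
  · intro i z hz
    rw [h9 i, Option.mem_def, Option.some.injEq] at hz
    subst hz
    have := (mem_nb.1 (hg2 (i, true)).1).2
    simp only [if_true] at this
    exact this
  · intro u hu v hv huv
    have := h10 u hu v hv huv
    exact le_trans (by omega) this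

/-- all lengths greater than twice the number of hubs -/
theorem EXC_long (hSEG : T_SEG) (hGRD : T_GRD) {V : Type} (G : SimpleGraph V)
    (H B Bs X X' : Finset V) (q k b : ℕ) (M : Fin b → V × V) (hHk : H.card ≤ k)
    (hX : ∀ v ∈ X, v ∉ H ∧ 8 * q ≤ (nb G Bs v).card)
    (hBs : ∀ v ∈ Bs, v ∉ H ∧ 4 * q ≤ (nb G H v).card)
    (hM1 : ∀ i, (M i).1 ∈ Bs ∧ (M i).1 ∉ X) (hM2 : ∀ i, (M i).2 ∈ Bs ∧ (M i).2 ∉ X)
    (hMa : ∀ i, G.Adj (M i).1 (M i).2) (hMd1 : ∀ i j, i ≠ j → (M i).1 ≠ (M j).1)
    (hMd2 : ∀ i j, i ≠ j → (M i).2 ≠ (M j).2) (hMd3 : ∀ i j, (M i).1 ≠ (M j).2)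
    (hcn : by
      classical exact ∀ u ∈ H, ∀ v ∈ H, u ≠ v →
      k + 4 * q ≤ ((cn G B u v).filter (fun w => w ∉ H)).card)
    (hH4 : 4 * q ≤ H.card) (hX' : X' ⊆ X) (hXq : X.card ≤ q) (hb : 2 * X'.card + b ≤ 2 * q)
    (h1 : 1 ≤ X'.card + b) : Cy G (2 * H.card + 2 * X'.card + b) := by
  classical
  have hXX : X'.card ≤ X.card := card_le_card hX'
  -- the neighbours in Bs of the vertices of X'
  obtain ⟨f, hf1, hf2⟩ := hGRD (V := V) (ι := {v // v ∈ X'} × Bool) (fun p => nb G Bs p.1.1)
    (X ∪ (univ.image (fun i => (M i).1) ∪ univ.image (fun i => (M i).2))) (by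
      rintro ⟨v, e⟩
      rw [Fintype.card_prod, Fintype.card_bool, Fintype.card_coe]
      have e1 : (univ.image (fun i => (M i).1)).card ≤ b :=
        le_trans card_image_le (by simp)
      have e2 : (univ.image (fun i => (M i).2)).card ≤ b :=
        le_trans card_image_le (by simp)
      have e3 := card_union_le (univ.image (fun i => (M i).1)) (univ.image (fun i => (M i).2))
      have e4 := card_union_le X (univ.image (fun i => (M i).1) ∪ univ.image (fun i => (M i).2))
      have e5 := (hX v.1 (hX' v.2)).2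
      show _ ≤ (nb G Bs v.1).card
      omega)
  have hfB : ∀ p, f p ∈ Bs := fun p => (mem_nb.1 (hf2 p).1).1
  have hfa : ∀ p, G.Adj p.1.1 (f p) := fun p => (mem_nb.1 (hf2 p).1).2
  have hfX : ∀ p, f p ∉ X := fun p h => (hf2 p).2 (mem_union_left _ h)
  have hfM1 : ∀ p i, f p ≠ (M i).1 := fun p i h => (hf2 p).2
    (mem_union_right _ (mem_union_left _ (mem_image.2 ⟨i, mem_univ _, h.symm⟩)))
  have hfM2 : ∀ p i, f p ≠ (M i).2 := fun p i h => (hf2 p).2
    (mem_union_right _ (mem_union_right _ (mem_image.2 ⟨i, mem_univ _, h.symm⟩)))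
  let σ : {v // v ∈ X'} ⊕ Fin b → List V :=
    Sum.elim (fun v => [f (v, false), v.1, f (v, true)]) (fun i => [(M i).1, (M i).2])
  let x : {v // v ∈ X'} ⊕ Fin b → V := Sum.elim (fun v => f (v, false)) (fun i => (M i).1)
  let y : {v // v ∈ X'} ⊕ Fin b → V := Sum.elim (fun v => f (v, true)) (fun i => (M i).2)
  have hσl : ∀ v, σ (Sum.inl v) = [f (v, false), v.1, f (v, true)] := fun v => rfl
  have hσr : ∀ i, σ (Sum.inr i) = [(M i).1, (M i).2] := fun i => rfl
  have hcard : Fintype.card ({v // v ∈ X'} ⊕ Fin b) = X'.card + b := by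
    rw [Fintype.card_sum, Fintype.card_coe, Fintype.card_fin]
  have hsum : ∑ i, (σ i).length = 3 * X'.card + 2 * b := by
    rw [Fintype.sum_sum_type]
    simp only [hσl, hσr, List.length_cons, List.length_nil, sum_const, card_univ,
      Fintype.card_coe, Fintype.card_fin, smul_eq_mul]
    omega
  have key := EXC_hub hSEG hGRD G H B q k σ x y ?_ ?_ ?_ ?_ ?_ ?_ ?_ hcn hH4 hHk
    (by rw [hcard]; exact h1) (by rw [hcard]; omega) (by rw [hsum]; omega)
  · rw [hsum, hcard] at key
    rw [show 2 * H.card + 2 * X'.card + b = 3 * X'.card + 2 * b + 3 * (X'.card + b) +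
      2 * (H.card - 2 * (X'.card + b)) by omega]
    exact key
  · rintro (v | i)
    · rw [hσl]
      have e1 : f (v, false) ≠ v.1 := fun h => hfX (v, false) (h ▸ hX' v.2)
      have e2 : v.1 ≠ f (v, true) := fun h => hfX (v, true) (h ▸ hX' v.2)
      have e3 : f (v, false) ≠ f (v, true) := by
        intro h
        have := hf1 h
        simp at this
      refine ⟨by simp [e1, e2, e3], ?_⟩
      rw [List.isChain_cons_cons, List.isChain_cons_cons]
      exact ⟨(hfa (v, false)).symm, hfa (v, true), List.isChain_singleton _⟩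
    · rw [hσr]
      refine ⟨by simp [hMd3 i i], ?_⟩
      rw [List.isChain_cons_cons]
      exact ⟨hMa i, List.isChain_singleton _⟩
  · -- disjoint segments
    have d1 : ∀ v w : {v // v ∈ X'}, v ≠ w → ∀ u ∈ σ (Sum.inl v), u ∉ σ (Sum.inl w) := by
      intro v w hvw u hu hu'
      rw [hσl] at hu hu'
      have hff : ∀ e e', f (v, e) ≠ f (w, e') := by
        intro e e' h
        have := hf1 h
        rw [Prod.mk.injEq] at this
        exact hvw this.1
      have hfw : ∀ e, f (v, e) ≠ w.1 := fun e h => hfX (v, e) (h ▸ hX' w.2)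
      have hfv : ∀ e, f (w, e) ≠ v.1 := fun e h => hfX (w, e) (h ▸ hX' v.2)
      simp only [List.mem_cons, List.not_mem_nil, or_false] at hu hu'
      rcases hu with rfl | rfl | rfl
      · rcases hu' with h | h | h
        · exact hff _ _ h
        · exact hfw _ h
        · exact hff _ _ h
      · rcases hu' with h | h | h
        · exact hfv _ h.symm
        · exact hvw (Subtype.ext h)
        · exact hfv _ h.symm
      · rcases hu' with h | h | h
        · exact hff _ _ h
        · exact hfw _ h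
        · exact hff _ _ h
    have d2 : ∀ (v : {v // v ∈ X'}) (i : Fin b), ∀ u ∈ σ (Sum.inl v), u ∉ σ (Sum.inr i) := by
      intro v i u hu hu'
      rw [hσl] at hu
      rw [hσr] at hu'
      simp only [List.mem_cons, List.not_mem_nil, or_false] at hu hu'
      rcases hu with rfl | rfl | rfl
      · rcases hu' with h | h
        · exact hfM1 _ _ h
        · exact hfM2 _ _ h
      · rcases hu' with h | h
        · exact (hM1 i).2 (h ▸ hX' v.2)
        · exact (hM2 i).2 (h ▸ hX' v.2)
      · rcases hu' with h | h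
        · exact hfM1 _ _ h
        · exact hfM2 _ _ h
    have d3 : ∀ i i' : Fin b, i ≠ i' → ∀ u ∈ σ (Sum.inr i), u ∉ σ (Sum.inr i') := by
      intro i i' hii u hu hu'
      rw [hσr] at hu hu'
      simp only [List.mem_cons, List.not_mem_nil, or_false] at hu hu'
      rcases hu with rfl | rfl
      · rcases hu' with h | h
        · exact hMd1 _ _ hii h
        · exact hMd3 _ _ h
      · rcases hu' with h | h
        · exact hMd3 _ _ h.symm
        · exact hMd2 _ _ hii h
    rintro (v | i) (w | i') hij u hu hu'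
    · exact d1 v w (fun h => hij (by rw [h])) u hu hu'
    · exact d2 v i' u hu hu'
    · exact d2 w i u hu' hu
    · exact d3 i i' (fun h => hij (by rw [h])) u hu hu'
  · rintro (v | i) u hu
    · rw [hσl] at hu
      simp only [List.mem_cons, List.not_mem_nil, or_false] at hu
      rcases hu with rfl | rfl | rfl
      · exact (hBs _ (hfB _)).1
      · exact (hX _ (hX' v.2)).1
      · exact (hBs _ (hfB _)).1
    · rw [hσr] at hu
      simp only [List.mem_cons, List.not_mem_nil, or_false] at hu
      rcases hu with rfl | rfl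
      · exact (hBs _ (hM1 i).1).1
      · exact (hBs _ (hM2 i).1).1
  · rintro (v | i) <;> rfl
  · rintro (v | i) <;> rfl
  · rintro (v | i)
    · exact (hBs _ (hfB _)).2
    · exact (hBs _ (hM1 i).1).2
  · rintro (v | i)
    · exact (hBs _ (hfB _)).2
    · exact (hBs _ (hM2 i).1).2

theorem pf_EXC (hSEG : T_SEG) (hGRD : T_GRD) : T_EXC := by
  classical
  intro V G H B Bs X k j M hHk hXj hX hBs hM hcn hH4
  refine hasRun_of_cy (l := 2) ?_
  intro i hi
  have hM1 : ∀ i, (M i).1 ∈ Bs ∧ (M i).1 ∉ X := fun i => by simpa using hM.l i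
  have hM2 : ∀ i, (M i).2 ∈ Bs ∧ (M i).2 ∉ X := fun i => by simpa using hM.r i
  rcases Nat.lt_or_ge H.card (i + 2) with hlt | hge
  · rcases Nat.lt_or_ge X.card (i + 2 - H.card) with hX1 | hX1
    · -- all of X and some edges
      have hle : 2 * (i + 2 - H.card - X.card) ≤ 2 * (j + 1 - X.card) := by omega
      have hinj : ∀ a b : Fin (2 * (i + 2 - H.card - X.card)), a ≠ b →
          Fin.castLE hle a ≠ Fin.castLE hle b := fun a b hab h =>
        hab (Fin.castLE_injective hle h)
      have key := EXC_long hSEG hGRD G H B Bs X X (j + 1) k (2 * (i + 2 - H.card - X.card))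
        (fun a => M (Fin.castLE hle a)) (by omega) hX hBs (fun a => hM1 _) (fun a => hM2 _)
        (fun a => hM.adj _) (fun a b hab => hM.d1 _ _ (hinj a b hab))
        (fun a b hab => hM.d2 _ _ (hinj a b hab)) (fun a b => hM.d3 _ _)
        (fun u hu v hv huv => le_trans (hcn u hu v hv huv) (card_le_card (fun w hw => by
          simpa using hw))) hH4 (Finset.Subset.refl _) hXj (by omega) (by omega)
      rw [show 2 * 2 + 2 * i = 2 * H.card + 2 * X.card + 2 * (i + 2 - H.card - X.card) by omega]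
      exact key
    · -- a part of X
      obtain ⟨X', hX', hc⟩ := exists_subset_card_eq hX1
      have key := EXC_long hSEG hGRD G H B Bs X X' (j + 1) k 0 Fin.elim0 (by omega) hX hBs
        (fun a => a.elim0) (fun a => a.elim0) (fun a => a.elim0) (fun a => a.elim0)
        (fun a => a.elim0) (fun a => a.elim0)
        (fun u hu v hv huv => le_trans (hcn u hu v hv huv) (card_le_card (fun w hw => by
          simpa using hw))) hH4 hX' hXj (by omega) (by omega)
      rw [show 2 * 2 + 2 * i = 2 * H.card + 2 * X'.card + 0 by omega]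
      exact key
  · have key := EXC_seg hSEG (ι := Fin 0) G H B (i + 2) (k + 4 * (j + 1)) Fin.elim0 Fin.elim0
      Fin.elim0 (fun a => a.elim0) (fun a => a.elim0) (fun a => a.elim0) (fun a => a.elim0)
      (fun a => a.elim0) (fun a => a.elim0) (fun a => a.elim0) (fun a => a.elim0)
      (fun a => a.elim0) (fun u hu v hv huv => le_trans (by simp)
        (le_trans (hcn u hu v hv huv) (card_le_card (fun w hw => by
          simpa using hw)))) (by simpa using hge) (by simp; omega) (Or.inr (by omega))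
    rw [show 2 * 2 + 2 * i = 2 * (i + 2) by omega]
    simpa using key

end Pool.Agent.H20.VX
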