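import Pool.Agent.H30.VX.Targets

/-!
# MP_d32443_co, large `k`: row L3

A core of type I and a lower regular pair which are not separated by 2 vertices give a run.
-/

set_option autoImplicit false

namespace Pool.Agent.H20.VX

open Finset Pool.Agent.H48.CE Pool.Agent.H30.VR Pool.Agent.H30.VX

open scoped Classical in
theorem L3_sep {V : Type} [Fintype V] {G : SimpleGraph V} {A' P R : Finset V} {d : ℝ}
    {r t : ℕ} {a : Fin 3 → V} (hinj : Function.Injective a)
    (hty : ∀ i, d * A'.card ≤ (nb G A' (a i)).card) (hA' : A'.card = r * t)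
    (hdr : (20 : ℝ) ≤ d * r) (ht : 2 ≤ t) (hS : Sp G 2 P R) (haP : ∀ i, a i ∈ P)
    (hR : (A'.filter (fun v => v ∉ R)).card < t) : False := by
  obtain ⟨hcov, hno, hcard⟩ := hS
  have h1 : ∃ i, a i ∉ R := by
    by_contra hcon
    push Not at hcon
    have h2 : (univ.image a).card ≤ (P.filter (fun x => x ∈ R)).card := by
      apply card_le_card
      intro x hx
      rw [mem_image] at hx
      obtain ⟨i, _, rfl⟩ := hx
      rw [mem_filter]
      exact ⟨haP i, hcon i⟩
    rw [card_image_of_injective _ hinj, card_univ, Fintype.card_fin] at h2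
    omega
  obtain ⟨i, hi⟩ := h1
  have h3 : (nb G A' (a i)).card ≤ (A'.filter (fun v => v ∉ R)).card +
      (P.filter (fun x => x ∈ R)).card := by
    refine le_trans (card_le_card ?_) (card_union_le _ _)
    intro x hx
    rw [mem_nb] at hx
    rw [mem_union, mem_filter, mem_filter]
    by_cases hxR : x ∈ R
    · right
      refine ⟨?_, hxR⟩
      by_contra hxP
      exact hno (a i) (haP i) hi x hxR hxP hx.2
    · exact Or.inl ⟨hx.1, hxR⟩
  have h4 := hty i
  rw [hA'] at h4
  push_cast at h4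
  have h5 : (20 : ℝ) * t ≤ d * r * t := mul_le_mul_of_nonneg_right hdr (Nat.cast_nonneg _)
  have h6 : ((nb G A' (a i)).card : ℝ) ≤ t + 2 := by
    have : (nb G A' (a i)).card ≤ t + 2 := by omega
    exact_mod_cast this
  have h7 : (2 : ℝ) ≤ t := by exact_mod_cast ht
  nlinarith [mul_assoc d (r : ℝ) (t : ℝ)]

theorem L3_card {V : Type} {S : Finset V} {p q : V → Prop} [DecidablePred p] [DecidablePred q]
    (h : ∀ v, p v → q v) : (S.filter p).card ≤ (S.filter q).card := by
  apply card_le_card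
  intro v hv
  rw [mem_filter] at hv ⊢
  exact ⟨hv.1, h v hv.2⟩

theorem pf_L3 (hMNL : T_MNL) (hMN2 : T_MN2) (hCMB : T_CMB) (hFEW : T_FEW) (hFLX : T_FLX)
    (hOBP : T_OBP) (hL3B : T_L3B) (hL3C : T_L3C) (hL3D : T_L3D) : T_L3 := by
  classical
  intro V _ G H B A A' d ε r t k hC hε hk hHk hLP hHA hd hd1 ht hdr h18 h9 h100 hkk hsep
  have hcA : A.card = r * t := hLP.ca
  have hcA' : A'.card = r * t := hLP.cb
  have hr20 : 20 ≤ r := by
    have h1 : d * r ≤ 1 * r := mul_le_mul_of_nonneg_right hd1 (Nat.cast_nonneg _)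
    have h2 : (20 : ℝ) ≤ r := by linarith
    exact_mod_cast h2
  have hrt : 20 * t ≤ r * t := Nat.mul_le_mul_right t hr20
  -- three typical vertices
  obtain ⟨a, hinj, haA, hty⟩ : ∃ a : Fin 3 → V, Function.Injective a ∧ (∀ i, a i ∈ A) ∧
      ∀ i, d * A'.card ≤ (nb G A' (a i)).card := by
    have h1 := hLP.lr.typ (by omega) (Finset.Subset.refl A') (by omega)
    have h2 : 3 ≤ (A.filter (fun a => ¬ ((nb G A' a).card : ℝ) < d * A'.card)).card := by
      have h3 := card_filter_add_card_filter_not (s := A)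
        (fun a => ((nb G A' a).card : ℝ) < d * A'.card)
      omega
    obtain ⟨f⟩ : Nonempty (Fin 3 ↪ {x // x ∈ A.filter
        (fun a => ¬ ((nb G A' a).card : ℝ) < d * A'.card)}) := by
      apply Function.Embedding.nonempty_of_card_le
      rw [Fintype.card_fin, Fintype.card_coe]
      exact h2
    refine ⟨fun i => (f i).1, ?_, ?_, ?_⟩
    · intro i j hij
      exact f.injective (Subtype.ext hij)
    · intro i
      exact (mem_filter.1 (f i).2).1
    · intro i
      exact not_lt.1 (mem_filter.1 (f i).2).2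
  -- the system of paths
  have hPS : ∃ Q, PS G a H Q := by
    rcases hMNL G a H hinj (by simp) with h | ⟨P, R, hSp, haP, hHR⟩
    · exact h
    · exfalso
      rw [show Fintype.card (Fin 3) - 1 = 2 by simp] at hSp
      rcases hOBP G A A' d r t hLP hd (by omega) (by omega) P R hSp with h | h
      · exact hsep P R hSp h.1 h.2 hHR
      · exact L3_sep hinj hty hcA' hdr ht hSp haP h.2
  obtain ⟨Q, hQ⟩ := exists_mps hPS
  have hQ1 := hQ.1
  have hcard3 : (Fintype.card (Fin 3) : ℝ) = 3 := by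
    rw [Fintype.card_fin]
    norm_num
  have hfew := hFEW G a H Q A A' d t r hQ hLP.dis hLP.lr hd hd1 (by omega) (by omega) (by omega)
    (by rw [hcard3]; linarith) (by rw [hcard3]; linarith)
  -- two paths of the same parity
  obtain ⟨i, j, hij, heven⟩ : ∃ i j : Fin 3, i ≠ j ∧ Even ((Q i).length + (Q j).length) := by
    rcases Nat.even_or_odd (Q 0).length with h0 | h0
    · rcases Nat.even_or_odd (Q 1).length with h1 | h1
      · exact ⟨0, 1, by decide, h0.add h1⟩
      · rcases Nat.even_or_odd (Q 2).length with h2 | h2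
        · exact ⟨0, 2, by decide, h0.add h2⟩
        · exact ⟨1, 2, by decide, h1.add_odd h2⟩
    · rcases Nat.even_or_odd (Q 1).length with h1 | h1
      · rcases Nat.even_or_odd (Q 2).length with h2 | h2
        · exact ⟨1, 2, by decide, h1.add h2⟩
        · exact ⟨0, 2, by decide, h0.add_odd h2⟩
      · exact ⟨0, 1, by decide, h0.add_odd h1⟩
  obtain ⟨y, hyH, hy⟩ := hQ1.last i
  obtain ⟨y', hyH', hy'⟩ := hQ1.last j
  have hyQ : y ∈ Q i := List.mem_of_getLast? hy
  have hyQ' : y' ∈ Q j := List.mem_of_getLast? hy'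
  have hyy : y ≠ y' := by
    rintro rfl
    exact hQ1.disj i j hij y hyQ hyQ'
  have hanej : a i ≠ a j := fun h => hij (hinj h)
  let X : Finset V := univ.filter (fun v => ∃ i, v ∈ Q i)
  have hX : ∀ v, v ∈ X ↔ ∃ i, v ∈ Q i := by
    intro v
    simp [X]
  let Z : Finset V := (X ∪ A ∪ A').filter (fun v => v ∉ H)
  have hZ : ∀ v, v ∈ Z ↔ ((∃ i, v ∈ Q i) ∨ v ∈ A ∨ v ∈ A') ∧ v ∉ H := by
    intro v
    simp only [Z, mem_filter, mem_union, hX]
    tauto
  have hBZ : ((B.filter (fun v => v ∈ Z)).card : ℝ) ≤ B.card / 500 + k / 40 := by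
    have h1 : (B.filter (fun v => v ∈ Z)).card ≤
        (B.filter (fun v => ∃ i, v ∈ Q i)).card + A.card + A'.card := by
      refine le_trans (card_le_card ?_) (le_trans (card_union_le _ _)
        (Nat.add_le_add_right (card_union_le _ _) _))
      intro v hv
      rw [mem_filter, hZ] at hv
      rw [mem_union, mem_union, mem_filter]
      tauto
    have h2 := hL3B G H B a Q hQ hC.1
    have h3 := hL3C G H B ε k hC hε (by omega)
    have h4 : (B.filter (fun v => v ∈ Z)).card ≤
        (B.filter (fun v => (nb G H v).card ≤ 3)).card + (3 + 2 * (r * t)) := by omega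
    have h5 : ((B.filter (fun v => v ∈ Z)).card : ℝ) ≤
        ((B.filter (fun v => (nb G H v).card ≤ 3)).card : ℝ) + (3 + 2 * (r * t)) := by
      exact_mod_cast h4
    have h6 : (100 : ℝ) * (r * t) ≤ k := by exact_mod_cast h100
    have h7 : (1000 : ℝ) ≤ k := by exact_mod_cast hk
    linarith
  have hdA : (20 * t : ℝ) ≤ d * A.card := by
    rw [hcA]
    push_cast
    have h5 : (20 : ℝ) * t ≤ d * r * t := mul_le_mul_of_nonneg_right hdr (Nat.cast_nonneg _)
    linarith [mul_assoc d (r : ℝ) (t : ℝ)]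
  have h3t : ∀ x, x < 2 * t → x ≤ 3 * t := fun x hx => by omega
  have hb : Even ((Q i).length + (Q j).length + 6) := heven.add (by decide)
  refine hasRun_of_even (a := 1) hb ?_
  intro s hs1 hs2
  have hH2 : 2 ≤ H.card := by omega
  obtain ⟨s₁, s₂, hs, hs₁, hs₂, hs₂'⟩ : ∃ s₁ s₂ : ℕ, s₁ + s₂ = s ∧ s₁ + 20 * t ≤ A.card ∧
      1 ≤ s₂ ∧ s₂ + 1 ≤ H.card := by
    by_cases h : s - 1 + 20 * t ≤ r * t
    · exact ⟨s - 1, 1, by omega, by omega, le_refl _, by omega⟩
    · exact ⟨r * t - 20 * t, s - (r * t - 20 * t), by omega, by omega, by omega, by omega⟩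
  obtain ⟨l, hl1, hl2, hl3⟩ := hFLX G A A' X d t (a i) (a j) hLP.dis (by omega) hd ht hLP.lr hdA
    hd1 (h3t _ (lt_of_le_of_lt (@L3_card V A _ _ (_) (_) (fun v hv => (hX v).1 hv)) hfew.1))
    (h3t _ (lt_of_le_of_lt (@L3_card V A' _ _ (_) (_) (fun v hv => (hX v).1 hv)) hfew.2))
    (haA i) (haA j) hanej (hty i) (hty j) s₁ hs₁
  obtain ⟨L, hL1, hL2, hL3⟩ := hCMB G a H Q hQ1 i j l y y' hij hl2
    (fun v hv i' hvi => (hl3 v hv).2 ((hX v).2 ⟨i', hvi⟩)) hy hy'
  obtain ⟨m, hm1, hm2, hm3⟩ := hL3D G H B Z ε k y y' hC hε hk hHk hyH hyH' hyy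
    (fun v hv => ((hZ v).1 hv).2) hBZ s₂ hs₂ hs₂'
  have hyL : y ∉ L := by
    intro h
    have := (List.nodup_cons.1 hL2.1).1
    exact this (by simp [h])
  have hyL' : y' ∉ L := by
    intro h
    have h1 := (List.nodup_cons.1 hL2.1).2
    rw [List.nodup_append] at h1
    exact h1.2.2 y' h y' (by simp) rfl
  have hdis : ∀ v ∈ L, v ∉ m := by
    intro v hv hvm
    obtain ⟨_, hvZ⟩ := hm3 v hvm
    have hvH : v ∈ H := by
      by_contra hvH
      apply hvZ
      rw [hZ]
      refine ⟨?_, hvH⟩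
      rcases hL3 v hv with h | h | h
      · exact Or.inl ⟨i, h⟩
      · exact Or.inl ⟨j, h⟩
      · exact Or.inr (hl3 v h).1
    rcases hL3 v hv with h | h | h
    · have h1 := hMN2 G a H Q hQ i v h hvH
      rw [hy, Option.some.injEq] at h1
      exact hyL (h1 ▸ hv)
    · have h1 := hMN2 G a H Q hQ j v h hvH
      rw [hy', Option.some.injEq] at h1
      exact hyL' (h1 ▸ hv)
    · rcases (hl3 v h).1 with h1 | h1
      · exact (hHA v hvH).1 h1
      · exact (hHA v hvH).2 h1
  have hcy := cy_of_two hL2 hm2 hdis (by omega)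
  rw [show (Q i).length + (Q j).length + 6 + 2 * s = L.length + m.length + 2 by omega]
  exact hcy

end Pool.Agent.H20.VX
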